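import Pool.Agent.GBS.StmtsB
import Pool.Agent.Helper60_MVS.PAR

/-! BOF: from the cylinder to a parametrization. -/

noncomputable section

open scoped ContDiff Topology RealInnerProductSpace
open Set MeasureTheory

namespace Pool.Agent.GBS.H43

open Pool.Agent.RF Pool.Agent.MVS Pool.Agent.SecondKind Pool.Agent.MinVolSphere

theorem bof (h : BfoStmt) : BofStmt := by
  intro g G hC x hx F hF
  obtain ⟨hG, hGg⟩ := hC
  have hCh := chrStatement
  have hn : 0 < ‖x‖ := norm_pos_iff.2 hx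
  set ξ : E5 := ‖x‖⁻¹ • x with hξ
  have hξ1 : ‖ξ‖ = 1 := by
    rw [hξ, norm_smul, norm_inv, norm_norm]
    exact inv_mul_cancel₀ hn.ne'
  have hξ0 : ξ ∈ Om (Fin 5) := by
    intro h0
    rw [h0, norm_zero] at hξ1
    exact zero_ne_one hξ1
  have hx2 : x = ‖x‖ • ξ := by
    rw [hξ, smul_smul, mul_inv_cancel₀ hn.ne', one_smul]
  have e1 : G x = (‖x‖ ^ 2)⁻¹ • G ξ := by
    conv_lhs => rw [hx2]
    exact hG.homog _ hn _ hξ0
  have e2 : ∀ u v w, riem G x u v w = (‖x‖ ^ 2)⁻¹ • riem G ξ u v w := by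
    intro u v w
    conv_lhs => rw [hx2]
    exact H5.cyl_riem_hom hCh hG hξ0 hn u v w
  have hsum : OnSphere (fun i => ξ i) := by
    show ∑ i, ξ i ^ 2 = 1
    rw [← EuclideanSpace.real_norm_sq_eq, hξ1]
    norm_num
  obtain ⟨U, ψ, y, -, -, hψ, hy, hyx, -, -, -, -, hsurj⟩ :=
    Pool.Agent.MVS.H60.par (fun i => ξ i) hsum
  have inn : ∀ u : E5, ⟪ξ, u⟫ = ∑ i, ξ i * u i := fun u => by
    rw [PiLp.inner_apply]
    exact Finset.sum_congr rfl fun i _ => by simp [mul_comm]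
  have hvy : vc (ψ y) = ξ := by
    rw [hyx]
    rfl
  have hex : ∀ a, ∃ u, fderiv ℝ ψ y u = fun i => (‖x‖⁻¹ • F a) i := by
    intro a
    refine hsurj y hy _ ?_
    rw [hyx, ← inn, hξ, inner_smul_left, inner_smul_right, hF.1 a]
    simp
  choose e he using hex
  have hve : ∀ a, vc (fderiv ℝ ψ y (e a)) = ‖x‖⁻¹ • F a := by
    intro a
    rw [he a]
    rfl
  obtain ⟨hb1, hb2, -⟩ := h g G ⟨hG, hGg⟩ U ψ hψ y hy
  have hM := hG.metric
  refine ⟨U, ψ, y, e, hψ, hy, hvy, ?_, ?_⟩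
  · intro a b
    rw [hb2, hvy, hve, hve, ← hF.2 a b, e1]
    simp only [map_smul, _root_.smul_apply, smul_eq_mul]
    field_simp
  · intro a b c d
    rw [hb1, hvy, hve, hve, hve, hve]
    unfold Kf
    rw [e2, e1, H5.riem_smul1 hCh hM hξ0, H5.riem_smul2 hCh hM hξ0, H5.riem_smul3 hCh hM hξ0]
    simp only [map_smul, _root_.smul_apply, smul_eq_mul]
    field_simp

end Pool.Agent.GBS.H43
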